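import Mathlib

/-!
# Shifts of the Tribonacci word: state complexity between `c ^ (3/8)` and `c` along a subsequence

`MP_99b159_lc`, Q1, asks for the order of growth of the state complexity `s c` of the shifted
Tribonacci word `(r (i + c))_i`.  In the Fibonacci setting addition of `c` needs only `O(log c)` states.
Here: `s c ≤ 324 (c + 1)` for all `c`, `s c → ∞`, and `s c ≥ 2 ^ t` for `c = W (3 t + 1)`.
So `c ^ 3 ≤ 9 (s c) ^ 8` for infinitely many `c`, and `s c` is not bounded by a power of `log c`.

Lower bound: the `2 ^ t` words `(1 a₁ 0)(1 a₂ 0) ⋯ (1 a_t 0)` lead to pairwise different states.  If `i` is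
the first index at which two of them differ, append `(100)^i`: then `c` is added at the digit `a_i`.
If `a_i = 0` there is no carry and the last digit stays `0`; if `a_i = 1` the identity
`2 W (k + 3) = W (k + 4) + W k` gives a carry that is passed on by every block and
changes the last digit to `1`.

Upper bound: let `c < W k`.  The future of a word `u v` with `|v| = k` depends only on `v` and on the
letters of the Tribonacci word at the four positions from the value of `u` on.

Divergence: finitely many automata have a given number of states, the word is not ultimately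
periodic by the lower bound, so no automaton generates two shifts.
-/

set_option autoImplicit false

namespace Pool.Agent.Results.MP_99b159_lc.PolynomialGrowth

/-- `W 0 = 1`, `W 1 = 2`, `W 2 = 4`, `W (k + 3) = W (k + 2) + W (k + 1) + W k` -/
def W : ℕ → ℕ
  | 0 => 1
  | 1 => 2
  | 2 => 4
  | (k + 3) => W (k + 2) + W (k + 1) + W k

/-- the morphism `0 ↦ 01`, `1 ↦ 02`, `2 ↦ 0` -/
def morph (x : Fin 3) : List (Fin 3) :=
  if x = 0 then [0, 1] else if x = 1 then [0, 2] else [0]

/-- the `k`-th image of the letter `0` under the morphism -/
def iter : ℕ → List (Fin 3)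
  | 0 => [0]
  | (k + 1) => (iter k).flatMap morph

/-- the Tribonacci word `0102010010201...`: its letter `n` is the letter `n` of `iter n`
(the words `iter k` are prefixes of each other, and `iter n` has more than `n` letters) -/
def r (n : ℕ) : Fin 3 := (iter n).getD n 0

/-- the value of a binary word, most significant digit first, in the Tribonacci numeration -/
def val : List Bool → ℕ
  | [] => 0
  | (b :: e) => (if b then W e.length else 0) + val e

/-- Tribonacci representations: no three consecutive ones and no leading zero -/
def IsRep (e : List Bool) : Prop := ¬ [true, true, true] <:+: e ∧ e.head? ≠ some false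

/-- A Tribonacci DFAO with set of states `Q`: a start state, a partial transition function and an
output function -/
structure DFAO (Q : Type) where
  start : Q
  step : Q → Bool → Option Q
  out : Q → Fin 3
  /-- the start state carries a loop with the label `0` -/
  loop : step start false = some start
  /-- transitions that would create the factor `111` are undefined -/
  no_ones : ∀ e : List Bool, [true, true, true] <:+: e → e.foldlM step start = none

/-- the sequence `h` is generated: after the representation of `i` the output is `h i` -/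
def DFAO.Generates {Q : Type} (M : DFAO Q) (h : ℕ → Fin 3) : Prop :=
  ∀ e : List Bool, IsRep e → ∃ q, e.foldlM M.step M.start = some q ∧ M.out q = h (val e)

/-! ### the numbers `W` and the Tribonacci word -/

lemma W3 (k : ℕ) : W (k + 3) = W (k + 2) + W (k + 1) + W k := rfl

lemma W_pos : ∀ k, 0 < W k
  | 0 => by decide
  | 1 => by decide
  | 2 => by decide
  | (k + 3) => by rw [W3]; have := W_pos (k + 2); omega

lemma W_lt (k : ℕ) : W k < W (k + 1) := by
  match k with
  | 0 => decide
  | 1 => decide
  | (k + 2) =>
    rw [W3]
    have := W_pos k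
    have := W_pos (k + 1)
    omega

lemma W_mono : StrictMono W := strictMono_nat_of_lt_succ W_lt

lemma W_gt (k : ℕ) : k < W k := by
  induction k with
  | zero => decide
  | succ n ih => have := W_lt n; omega

lemma two_W (k : ℕ) : 2 * W (k + 3) = W (k + 4) + W k := by
  rw [show k + 4 = (k + 1) + 3 by ring, W3 (k + 1), W3 k]
  ring_nf

lemma W_two : ∀ t, W (t + 1) + W t ≤ W (t + 2)
  | 0 => by decide
  | (t + 1) => by
    show W (t + 2) + W (t + 1) ≤ W (t + 3)
    rw [W3]
    omega

lemma iter3 : ∀ k, iter (k + 3) = iter (k + 2) ++ iter (k + 1) ++ iter k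
  | 0 => by decide
  | (k + 1) => by
    have ih := iter3 k
    show (iter (k + 3)).flatMap morph = (iter (k + 2)).flatMap morph ++
      (iter (k + 1)).flatMap morph ++ (iter k).flatMap morph
    rw [ih, List.flatMap_append, List.flatMap_append]

lemma length_iter : ∀ k, (iter k).length = W k
  | 0 => by decide
  | 1 => by decide
  | 2 => by decide
  | (k + 3) => by
    rw [iter3, List.length_append, List.length_append, length_iter (k + 2), length_iter (k + 1),
      length_iter k, W3]

lemma iter_prefix (k : ℕ) : iter k <+: iter (k + 1) := by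
  match k with
  | 0 => decide
  | 1 => decide
  | (k + 2) =>
    rw [iter3, List.append_assoc]
    exact List.prefix_append _ _

lemma iter_prefix_le {k l : ℕ} (h : k ≤ l) : iter k <+: iter l := by
  induction l, h using Nat.le_induction with
  | base => exact List.prefix_rfl
  | succ n _ ih => exact ih.trans (iter_prefix n)

lemma getD_prefix {a b : List (Fin 3)} (h : a <+: b) {n : ℕ} (hn : n < a.length) :
    b.getD n 0 = a.getD n 0 := by
  obtain ⟨c, rfl⟩ := h
  exact List.getD_append _ _ _ _ hn

lemma r_eq {n k : ℕ} (h : n < W k) : r n = (iter k).getD n 0 := by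
  rcases le_total n k with h1 | h1
  · exact (getD_prefix (iter_prefix_le h1) (by rw [length_iter]; exact W_gt n)).symm
  · exact getD_prefix (iter_prefix_le h1) (by rw [length_iter]; exact h)

/-- deleting the leading digit does not change the letter -/
lemma r_peel (t x : ℕ) (hx : x < W (t + 1) + W t) : r (W (t + 2) + x) = r x := by
  have h1 : W (t + 2) + x < W (t + 3) := by rw [W3]; omega
  have h2 : (iter (t + 3)).getD (W (t + 2) + x) 0 = (iter (t + 1) ++ iter t).getD x 0 := by
    rw [iter3, List.append_assoc, ← length_iter (t + 2), List.getD_append_right _ _ _ _ (by omega)]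
    congr 1
    omega
  have h3 : iter (t + 1) ++ iter t <+: iter (t + 2) := by
    match t with
    | 0 => decide
    | (t + 1) =>
      rw [show t + 1 + 2 = t + 3 by ring, iter3 t]
      exact List.prefix_append _ _
  have h4 : x < W (t + 2) := by have := W_two t; omega
  rw [r_eq h1, h2, r_eq h4]
  exact (getD_prefix h3 (by rw [List.length_append, length_iter, length_iter]; exact hx)).symm

/-! ### words made of the blocks `1 a 0` -/

/-- the word `(1 a₁ 0)(1 a₂ 0) ⋯` -/
def blk : List Bool → List Bool
  | [] => []
  | (a :: l) => true :: a :: false :: blk l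

lemma length_blk (l : List Bool) : (blk l).length = 3 * l.length := by
  induction l with
  | nil => rfl
  | cons a l ih => simp only [blk, List.length_cons, ih]; ring

lemma blk_append (l l' : List Bool) : blk (l ++ l') = blk l ++ blk l' := by
  induction l with
  | nil => rfl
  | cons a l ih => simp [blk, ih]

lemma blk_rep (l : List Bool) : IsRep (blk l) := by
  constructor
  · induction l with
    | nil => simp [blk]
    | cons a l ih =>
      simp only [blk, List.infix_cons_iff, List.cons_prefix_cons]
      simp [ih]
  · cases l <;> simp [blk]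

/-- digit value -/
def dg (a : Bool) (n : ℕ) : ℕ := if a then W n else 0

/-- the value of a word of blocks -/
def V : List Bool → ℕ
  | [] => 0
  | (a :: l) => W (3 * l.length + 2) + dg a (3 * l.length + 1) + V l

lemma V_cons (a : Bool) (l : List Bool) :
    V (a :: l) = W (3 * l.length + 2) + dg a (3 * l.length + 1) + V l := rfl

lemma dg_true (n : ℕ) : dg true n = W n := rfl

lemma dg_false (n : ℕ) : dg false n = 0 := rfl

lemma val_blk (l : List Bool) : val (blk l) = V l := by
  induction l with
  | nil => rfl
  | cons a l ih =>
    simp only [blk, val, V, ih, List.length_cons, length_blk, dg]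
    simp [add_assoc]

lemma dg_le (a : Bool) (n : ℕ) : dg a n ≤ W n := by
  unfold dg; split <;> simp

lemma V_lt (l : List Bool) : V l < W (3 * l.length) := by
  induction l with
  | nil => decide
  | cons a l ih =>
    rw [V, List.length_cons, show 3 * (l.length + 1) = 3 * l.length + 3 by ring, W3]
    have := dg_le a (3 * l.length + 1)
    omega

lemma r_V (l : List Bool) : r (V l) = 0 := by
  induction l with
  | nil => decide
  | cons a l ih =>
    have h := V_lt l
    have h1 := dg_le a (3 * l.length + 1)
    rw [V, add_assoc, r_peel _ _ (by omega)]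
    cases a with
    | false => simpa [dg] using ih
    | true =>
      rcases l with _ | ⟨b, l⟩
      · decide
      · simp only [dg, if_true, List.length_cons] at *
        rw [show 3 * (l.length + 1) + 1 = (3 * l.length + 2) + 2 by ring,
          r_peel _ _ (by
            rw [show 3 * (l.length + 1) = 3 * l.length + 2 + 1 by ring] at h
            omega)]
        exact ih

/-- value with a carry at the leading digit -/
def C1 : List Bool → ℕ
  | [] => 1
  | (a :: l) => W (3 * l.length + 3) + dg a (3 * l.length + 1) + C1 l

/-- value with a carry at the two leading digits -/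
def C2 : List Bool → ℕ
  | [] => 1
  | (false :: l) => W (3 * l.length + 3) + W (3 * l.length + 1) + C1 l
  | (true :: l) => W (3 * l.length + 3) + W (3 * l.length + 2) + C2 l

lemma C1_nil : C1 [] = 1 := rfl

lemma C1_cons (a : Bool) (l : List Bool) :
    C1 (a :: l) = W (3 * l.length + 3) + dg a (3 * l.length + 1) + C1 l := rfl

lemma C2_true (l : List Bool) :
    C2 (true :: l) = W (3 * l.length + 3) + W (3 * l.length + 2) + C2 l := rfl

lemma C2_false (l : List Bool) : C2 (false :: l) = C1 (true :: l) := rfl

lemma len3 (b : Bool) (l : List Bool) (c : ℕ) : 3 * (b :: l).length + c = 3 * l.length + (c + 3) := by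
  rw [List.length_cons]; ring

lemma C1_eq (a : Bool) (l : List Bool) :
    C1 (a :: l) = W (3 * l.length + 2) + V (a :: l) := by
  induction l generalizing a with
  | nil => cases a <;> decide
  | cons b l ih =>
    have h := two_W (3 * l.length + 2)
    have e1 : W (3 * l.length + 2 + 3) = W (3 * l.length + 5) := rfl
    have e2 : W (3 * l.length + 2 + 4) = W (3 * l.length + 6) := rfl
    rw [C1_cons, V_cons a, ih b, len3, len3, len3]
    norm_num only
    omega

lemma C2_eq (a : Bool) (l : List Bool) :
    C2 (a :: l) = W (3 * l.length + 2) + W (3 * l.length + 1) + V (a :: l) := by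
  induction l generalizing a with
  | nil => cases a <;> decide
  | cons b l ih =>
    have h2 := two_W (3 * l.length + 2)
    have h1 := two_W (3 * l.length + 1)
    have e1 : W (3 * l.length + 2 + 3) = W (3 * l.length + 5) := rfl
    have e2 : W (3 * l.length + 2 + 4) = W (3 * l.length + 6) := rfl
    have e3 : W (3 * l.length + 1 + 3) = W (3 * l.length + 4) := rfl
    have e4 : W (3 * l.length + 1 + 4) = W (3 * l.length + 5) := rfl
    cases a with
    | false =>
      rw [C2_false, C1_cons, C1_eq, V_cons false, dg_true, dg_false, len3, len3, len3]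
      norm_num only
      omega
    | true =>
      rw [C2_true, ih b, V_cons true, dg_true, len3, len3, len3]
      norm_num only
      omega

lemma C1_lt (a : Bool) (l : List Bool) :
    C1 (a :: l) < W (3 * l.length + 3) + W (3 * l.length + 2) := by
  induction l generalizing a with
  | nil => cases a <;> decide
  | cons b l ih =>
    have h := ih b
    have h1 := dg_le a (3 * (b :: l).length + 1)
    have h2 : W (3 * l.length + 5) = W (3 * l.length + 4) + W (3 * l.length + 3) +
      W (3 * l.length + 2) := W3 (3 * l.length + 2)
    rw [C1_cons]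
    rw [len3] at *
    rw [len3, len3]
    norm_num only at *
    omega

lemma C1_lt' (l : List Bool) : C1 l < W (3 * l.length + 1) := by
  rcases l with _ | ⟨a, l⟩
  · decide
  · have h := C1_lt a l
    have h2 : W (3 * l.length + 4) = W (3 * l.length + 3) + W (3 * l.length + 2) +
      W (3 * l.length + 1) := W3 (3 * l.length + 1)
    rw [len3]
    norm_num only
    omega

lemma r_C1 (l : List Bool) : r (C1 l) ≠ 0 := by
  induction l with
  | nil => decide
  | cons a l ih =>
    rcases l with _ | ⟨b, l⟩
    · cases a <;> decide
    · have h := C1_lt b l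
      have h1 := dg_le a (3 * l.length + 4)
      have h2 : W (3 * l.length + 5) = W (3 * l.length + 4) + W (3 * l.length + 3) +
        W (3 * l.length + 2) := W3 (3 * l.length + 2)
      have e : C1 (a :: b :: l) = W (3 * l.length + 4 + 2) + (dg a (3 * l.length + 4) + C1 (b :: l)) := by
        have e6 : W (3 * l.length + 4 + 2) = W (3 * l.length + 6) := rfl
        rw [C1_cons, len3, len3]
        norm_num only
        omega
      rw [e, r_peel _ _ (by
        have h3 : W (3 * l.length + 4 + 1) = W (3 * l.length + 5) := rfl
        omega)]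
      cases a with
      | false => rw [dg_false, Nat.zero_add]; exact ih
      | true =>
        rw [dg_true, show 3 * l.length + 4 = (3 * l.length + 2) + 2 by ring, r_peel _ _ (by
          have h3 : W (3 * l.length + 2 + 1) = W (3 * l.length + 3) := rfl
          omega)]
        exact ih

lemma C2_lt (l : List Bool) : C2 l < W (3 * l.length + 1) := by
  induction l with
  | nil => decide
  | cons a l ih =>
    cases a with
    | false => rw [C2_false]; exact C1_lt' (true :: l)
    | true =>
      have h2 : W (3 * l.length + 4) = W (3 * l.length + 3) + W (3 * l.length + 2) +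
        W (3 * l.length + 1) := W3 (3 * l.length + 1)
      rw [C2_true, len3]
      norm_num only
      omega

lemma r_C2 (l : List Bool) : r (C2 l) ≠ 0 := by
  induction l with
  | nil => decide
  | cons a l ih =>
    cases a with
    | false => rw [C2_false]; exact r_C1 _
    | true =>
      have h := C2_lt l
      rw [C2_true, add_assoc, show 3 * l.length + 3 = (3 * l.length + 1) + 2 by ring, r_peel _ _ (by
          have h' : W (3 * l.length + 1 + 1) = W (3 * l.length + 2) := rfl
          omega),
        r_peel _ _ (by omega)]
      exact ih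

/-! ### the upper part of the word -/

/-- the value of a word of blocks followed by `M` zeros -/
def VM (M : ℕ) : List Bool → ℕ
  | [] => 0
  | (a :: l) => W (3 * l.length + 2 + M) + dg a (3 * l.length + 1 + M) + VM M l

lemma V_append (p q : List Bool) : V (p ++ q) = VM (3 * q.length) p + V q := by
  induction p with
  | nil => simp [VM]
  | cons a p ih =>
    rw [List.cons_append, V_cons, ih, VM, List.length_append,
      show 3 * (p.length + q.length) + 2 = 3 * p.length + 2 + 3 * q.length by ring,
      show 3 * (p.length + q.length) + 1 = 3 * p.length + 1 + 3 * q.length by ring]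
    ring

lemma upper (N : ℕ) (p : List Bool) :
    (VM (N + 2) p + W (N + 2) = W (3 * p.length + N + 2) ∨
      VM (N + 2) p + W (N + 2) + W (N + 3) ≤ W (3 * p.length + N + 2)) ∧
    ∀ B, B < W (N + 1) → r (VM (N + 2) p + W (N + 2) + B) = r B := by
  induction p with
  | nil =>
    constructor
    · left
      simp [VM]
    · intro B hB
      simp only [VM, Nat.zero_add]
      exact r_peel N B (by omega)
  | cons a p ih =>
    obtain ⟨h1, h2⟩ := ih
    obtain ⟨x, hx⟩ : ∃ x, x = 3 * p.length + N := ⟨_, rfl⟩
    have hV : VM (N + 2) (a :: p) = W (x + 4) + dg a (x + 3) + VM (N + 2) p := by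
      rw [VM, hx, show 3 * p.length + 2 + (N + 2) = 3 * p.length + N + 4 by ring,
        show 3 * p.length + 1 + (N + 2) = 3 * p.length + N + 3 by ring]
    have hL : 3 * (a :: p).length + N + 2 = x + 5 := by rw [List.length_cons, hx]; ring
    have h5 : W (x + 5) = W (x + 4) + W (x + 3) + W (x + 2) := W3 (x + 2)
    have hN : N ≤ x := by omega
    have m1 : W (N + 3) ≤ W (x + 3) := W_mono.monotone (by omega)
    have m2 : W (N + 1) < W (N + 3) := W_mono (by omega)
    have m3 : W (x + 2) < W (x + 3) := W_lt _
    have m4 : W (x + 3) < W (x + 4) := W_lt _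
    rw [hL, hV]
    rw [← hx] at h1
    cases a with
    | false =>
      rw [dg_false]
      refine ⟨Or.inr (by omega), ?_⟩
      intro B hB
      rw [show W (x + 4) + 0 + VM (N + 2) p + W (N + 2) + B =
        W (x + 2 + 2) + (VM (N + 2) p + W (N + 2) + B) by
          have : W (x + 2 + 2) = W (x + 4) := rfl
          omega,
        r_peel (x + 2) _ (by
          have : W (x + 2 + 1) = W (x + 3) := rfl
          omega)]
      exact h2 B hB
    | true =>
      rw [dg_true]
      refine ⟨by omega, ?_⟩
      intro B hB
      rcases h1 with h1 | h1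
      · rw [show W (x + 4) + W (x + 3) + VM (N + 2) p + W (N + 2) + B = W (x + 3 + 2) + B by
            have : W (x + 3 + 2) = W (x + 5) := rfl
            omega]
        exact r_peel (x + 3) _ (by omega)
      · rw [show W (x + 4) + W (x + 3) + VM (N + 2) p + W (N + 2) + B =
          W (x + 2 + 2) + (W (x + 1 + 2) + (VM (N + 2) p + W (N + 2) + B)) by
            have : W (x + 2 + 2) = W (x + 4) := rfl
            have : W (x + 1 + 2) = W (x + 3) := rfl
            omega,
          r_peel (x + 2) _ (by
            have : W (x + 2 + 1) = W (x + 3) := rfl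
            have : W (x + 1 + 2) = W (x + 3) := rfl
            omega),
          r_peel (x + 1) _ (by
            have : W (x + 1 + 1) = W (x + 2) := rfl
            omega)]
        exact h2 B hB

lemma carry (p q : List Bool) (hq : q ≠ []) :
    r (V (p ++ true :: q) + W (3 * q.length + 1)) ≠ 0 := by
  rcases q with _ | ⟨b, q⟩
  · exact absurd rfl hq
  · have h2 := two_W (3 * q.length + 2)
    have h1 := two_W (3 * q.length + 1)
    have e1 : W (3 * q.length + 2 + 3) = W (3 * q.length + 5) := rfl
    have e2 : W (3 * q.length + 2 + 4) = W (3 * q.length + 6) := rfl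
    have e3 : W (3 * q.length + 1 + 3) = W (3 * q.length + 4) := rfl
    have e4 : W (3 * q.length + 1 + 4) = W (3 * q.length + 5) := rfl
    have hB := C2_lt (b :: q)
    rw [len3] at hB
    norm_num only at hB
    have m : W (3 * q.length + 4) < W (3 * q.length + 5) := W_lt _
    have hU := (upper (3 * q.length + 4) p).2 (C2 (b :: q)) (by
      have : W (3 * q.length + 4 + 1) = W (3 * q.length + 5) := rfl
      omega)
    have e : V (p ++ true :: b :: q) + W (3 * (b :: q).length + 1) =
        VM (3 * q.length + 4 + 2) p + W (3 * q.length + 4 + 2) + C2 (b :: q) := by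
      have e5 : W (3 * q.length + 4 + 2) = W (3 * q.length + 6) := rfl
      have e6 : 3 * (true :: b :: q).length = 3 * q.length + 4 + 2 := by
        simp only [List.length_cons]; ring
      rw [V_append, V_cons, dg_true, C2_eq, e6, len3, len3]
      norm_num only
      omega
    rw [e, hU]
    exact r_C2 _

lemma nocarry (p q : List Bool) : r (V (p ++ false :: q) + W (3 * q.length + 1)) = 0 := by
  have e : V (p ++ false :: q) + W (3 * q.length + 1) = V (p ++ true :: q) := by
    rw [V_append, V_append, V_cons, V_cons, dg_false, dg_true, List.length_cons, List.length_cons]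
    omega
  rw [e]
  exact r_V _

lemma first_difference : ∀ l l' : List Bool, l.length = l'.length → l ≠ l' →
    ∃ p q q', (l = p ++ false :: q ∧ l' = p ++ true :: q') ∨
      (l' = p ++ false :: q ∧ l = p ++ true :: q')
  | [], [], _, h => absurd rfl h
  | [], _ :: _, h, _ => by simp at h
  | _ :: _, [], h, _ => by simp at h
  | a :: l, b :: l', hl, h => by
    by_cases hab : a = b
    · subst hab
      obtain ⟨p, q, q', h'⟩ := first_difference l l' (by simpa using hl) (by
        intro h2; exact h (by rw [h2]))
      refine ⟨a :: p, q, q', ?_⟩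
      rcases h' with ⟨h1, h2⟩ | ⟨h1, h2⟩
      · left; simp [h1, h2]
      · right; simp [h1, h2]
    · cases a <;> cases b
      · exact absurd rfl hab
      · exact ⟨[], l, l', Or.inl ⟨rfl, rfl⟩⟩
      · exact ⟨[], l', l, Or.inr ⟨rfl, rfl⟩⟩
      · exact absurd rfl hab

/-- words that differ at a block lead to different states -/
lemma separated {Q : Type} (M : DFAO Q) (t : ℕ) (hM : M.Generates fun i => r (i + W (3 * t + 1)))
    (p q q' : List Bool) (hq : (p ++ false :: q).length = t) (hq' : (p ++ true :: q').length = t)
    (h : (blk (p ++ false :: q)).foldlM M.step M.start =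
      (blk (p ++ true :: q')).foldlM M.step M.start) : False := by
  have hw : ∀ l : List Bool, blk (l ++ List.replicate (p.length + 1) false) =
    blk l ++ blk (List.replicate (p.length + 1) false) := fun l => blk_append _ _
  obtain ⟨s, hs, ho⟩ := hM (blk ((p ++ false :: q) ++ List.replicate (p.length + 1) false))
    (blk_rep _)
  obtain ⟨s', hs', ho'⟩ := hM (blk ((p ++ true :: q') ++ List.replicate (p.length + 1) false))
    (blk_rep _)
  rw [hw, List.foldlM_append, h] at hs
  rw [hw, List.foldlM_append] at hs'
  have hss : s = s' := by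
    rw [hs] at hs'
    exact Option.some.inj hs'
  subst hss
  rw [ho, val_blk, val_blk, List.append_assoc, List.append_assoc, List.cons_append,
    List.cons_append] at ho'
  have l1 : (q ++ List.replicate (p.length + 1) false).length = t := by
    simp only [List.length_append, List.length_cons, List.length_replicate] at *
    omega
  have l2 : (q' ++ List.replicate (p.length + 1) false).length = t := by
    simp only [List.length_append, List.length_cons, List.length_replicate] at *
    omega
  have c1 := nocarry p (q ++ List.replicate (p.length + 1) false)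
  have c2 := carry p (q' ++ List.replicate (p.length + 1) false) (by
    intro h0
    have := congrArg List.length h0
    simp at this)
  rw [l1] at c1
  rw [l2] at c2
  exact c2 (ho'.symm.trans c1)

lemma pow_le_card {Q : Type} [Fintype Q] (M : DFAO Q) (t : ℕ)
    (hM : M.Generates fun i => r (i + W (3 * t + 1))) : 2 ^ t ≤ Fintype.card Q := by
  have h : ∀ a : Fin t → Bool, ∃ s, (blk (List.ofFn a)).foldlM M.step M.start = some s := by
    intro a
    obtain ⟨s, hs, -⟩ := hM _ (blk_rep (List.ofFn a))
    exact ⟨s, hs⟩
  choose f hf using h
  have hinj : Function.Injective f := by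
    intro a b hab
    by_contra hne
    have hl : List.ofFn a ≠ List.ofFn b := fun h => hne (List.ofFn_injective h)
    obtain ⟨p, q, q', h'⟩ := first_difference _ _ (by simp) hl
    have e : (blk (List.ofFn a)).foldlM M.step M.start =
      (blk (List.ofFn b)).foldlM M.step M.start := by rw [hf, hf, hab]
    rcases h' with ⟨h1, h2⟩ | ⟨h1, h2⟩
    · exact separated M t hM p q q' (by rw [← h1]; simp) (by rw [← h2]; simp)
        (by rw [← h1, ← h2]; exact e)
    · exact separated M t hM p q q' (by rw [← h1]; simp) (by rw [← h2]; simp)
        (by rw [← h1, ← h2]; exact e.symm)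
  have := Fintype.card_le_of_injective f hinj
  simpa using this

lemma W_quot : ∀ k, 4 * W (k + 7) ≤ 25 * W (k + 4)
  | 0 => by decide
  | 1 => by decide
  | 2 => by decide
  | (k + 3) => by
    have h1 := W_quot (k + 2)
    have h2 := W_quot (k + 1)
    have h3 := W_quot k
    have e1 : W (k + 3 + 7) = W (k + 2 + 7) + W (k + 1 + 7) + W (k + 7) := W3 (k + 7)
    have e2 : W (k + 3 + 4) = W (k + 2 + 4) + W (k + 1 + 4) + W (k + 4) := W3 (k + 4)
    omega

lemma W_cube (t : ℕ) : W (3 * t + 1) ^ 3 ≤ 9 * (2 ^ t) ^ 8 := by
  rcases t with _ | t
  · decide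
  · induction t with
    | zero => decide
    | succ t ih =>
      have h1 : 4 * W (3 * (t + 1 + 1) + 1) ≤ 25 * W (3 * (t + 1) + 1) := by
        have := W_quot (3 * t)
        rw [show 3 * (t + 1 + 1) + 1 = 3 * t + 7 by ring, show 3 * (t + 1) + 1 = 3 * t + 4 by ring]
        exact this
      have h2 : (4 * W (3 * (t + 1 + 1) + 1)) ^ 3 ≤ (25 * W (3 * (t + 1) + 1)) ^ 3 :=
        Nat.pow_le_pow_left h1 3
      have h3 : (2 ^ (t + 1 + 1)) ^ 8 = 256 * (2 ^ (t + 1)) ^ 8 := by
        rw [pow_succ 2 (t + 1), mul_pow]; ring
      rw [mul_pow, mul_pow] at h2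
      rw [h3]
      omega

/-! ### the upper bound -/

/-- no three consecutive ones -/
def NoOnes (e : List Bool) : Prop := ¬ [true, true, true] <:+: e

lemma noOnes_cons {b : Bool} {e : List Bool} (h : NoOnes (b :: e)) : NoOnes e :=
  fun h' => h (List.infix_cons h')

lemma noOnes_false {e : List Bool} : NoOnes (false :: e) ↔ NoOnes e := by
  unfold NoOnes
  rw [List.infix_cons_iff]
  simp

lemma noOnes_left {a b : List Bool} (h : NoOnes (a ++ b)) : NoOnes a :=
  fun h' => h (h'.trans (List.infix_append' [] a b |> fun x => by simpa using x))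

lemma noOnes_right {a b : List Bool} (h : NoOnes (a ++ b)) : NoOnes b :=
  fun h' => h (h'.trans (List.suffix_append a b).isInfix)

/-- overlapping words without `111` can be glued -/
lemma noOnes_glue (a v w : List Bool) (hv : 2 ≤ v.length) (h1 : NoOnes (a ++ v))
    (h2 : NoOnes (v ++ w)) : NoOnes (a ++ (v ++ w)) := by
  induction a with
  | nil => simpa using h2
  | cons b a ih =>
    have ih' := ih (noOnes_cons h1)
    intro h
    rw [List.cons_append, List.infix_cons_iff] at h
    rcases h with h | h
    · apply h1
      rw [List.cons_append, List.infix_cons_iff]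
      left
      have h3 : b :: (a ++ (v ++ w)) = (b :: (a ++ v)) ++ w := by simp
      rw [h3] at h
      exact List.prefix_of_prefix_length_le h (List.prefix_append _ _) (by
        simp only [List.length_cons, List.length_append, List.length_nil]; omega)
    · exact ih' h

lemma val_lt : ∀ e : List Bool, NoOnes e → val e < W e.length
  | [], _ => by decide
  | [b], _ => by cases b <;> decide
  | [b, c], _ => by cases b <;> cases c <;> decide
  | (false :: b :: c :: e), h => by
    have h1 := val_lt (b :: c :: e) (noOnes_cons h)
    have h2 := W_lt (b :: c :: e).length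
    simp only [val, List.length_cons] at *
    simpa using h1.trans h2
  | (true :: false :: c :: e), h => by
    have h1 := val_lt (c :: e) (noOnes_cons (noOnes_cons h))
    simp only [val, List.length_cons, if_true, Bool.false_eq_true, if_false] at *
    have h3 : W (e.length + 1 + 1 + 1) = W (e.length + 1 + 1) + W (e.length + 1) + W e.length := rfl
    omega
  | (true :: true :: false :: e), h => by
    have h1 := val_lt e (noOnes_cons (noOnes_cons (noOnes_cons h)))
    simp only [val, List.length_cons, if_true, Bool.false_eq_true, if_false] at *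
    have h3 : W (e.length + 1 + 1 + 1) = W (e.length + 1 + 1) + W (e.length + 1) + W e.length := rfl
    omega
  | (true :: true :: true :: e), h => by
    exfalso
    exact h (List.prefix_append [true, true, true] e).isInfix

/-- if a leading one is possible, the value is small -/
lemma val_lt_one (e : List Bool) (n : ℕ) (hn : e.length = n + 2) (h : NoOnes (true :: e)) :
    val e < W (n + 1) + W n := by
  rcases e with _ | ⟨b, _ | ⟨c, e⟩⟩
  · simp at hn
  · simp at hn
  · have hl : e.length = n := by simpa using hn
    subst hl
    cases b with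
    | false =>
      have h1 := val_lt (c :: e) (noOnes_cons (noOnes_cons h))
      simp only [val, List.length_cons, if_true, Bool.false_eq_true, if_false] at *
      have := W_pos e.length
      omega
    | true =>
      cases c with
      | false =>
        have h1 := val_lt e (noOnes_cons (noOnes_cons (noOnes_cons h)))
        simp only [val, List.length_cons, if_true, Bool.false_eq_true, if_false] at *
        omega
      | true =>
        exfalso
        exact h (List.prefix_append [true, true, true] e).isInfix

lemma val_inj : ∀ e e' : List Bool, NoOnes e → NoOnes e' → e.length = e'.length →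
    val e = val e' → e = e'
  | [], [], _, _, _, _ => rfl
  | [], _ :: _, _, _, h, _ => by simp at h
  | _ :: _, [], _, _, h, _ => by simp at h
  | a :: e, b :: e', h, h', hl, hv => by
    have hl' : e.length = e'.length := by simpa using hl
    have h1 := val_lt e (noOnes_cons h)
    have h2 := val_lt e' (noOnes_cons h')
    have hab : a = b := by
      cases a <;> cases b <;> simp only [val, if_true, Bool.false_eq_true, if_false] at hv
      · rfl
      · rw [hl'] at h1; omega
      · rw [← hl'] at h2; omega
      · rfl
    subst hab
    have hv' : val e = val e' := by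
      simp only [val, hl'] at hv
      omega
    rw [val_inj e e' (noOnes_cons h) (noOnes_cons h') hl' hv']

/-- the value of a word followed by `m` zeros -/
def vs (m : ℕ) : List Bool → ℕ
  | [] => 0
  | (b :: e) => (if b then W (e.length + m) else 0) + vs m e

lemma val_append (a b : List Bool) : val (a ++ b) = vs b.length a + val b := by
  induction a with
  | nil => simp [vs]
  | cons x a ih => simp only [List.cons_append, val, vs, ih, List.length_append]; ring

/-- the `m`-th iterate of the morphism on words -/
def sm (m : ℕ) (l : List (Fin 3)) : List (Fin 3) := (fun l => l.flatMap morph)^[m] l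

lemma sm_zero (l : List (Fin 3)) : sm 0 l = l := rfl

lemma sm_succ (m : ℕ) (l : List (Fin 3)) : sm (m + 1) l = sm m (l.flatMap morph) := rfl

lemma sm_nil (m : ℕ) : sm m [] = [] := by
  induction m with
  | zero => rfl
  | succ m ih => rw [sm_succ]; exact ih

lemma sm_append (m : ℕ) (a b : List (Fin 3)) : sm m (a ++ b) = sm m a ++ sm m b := by
  induction m generalizing a b with
  | zero => rfl
  | succ m ih => rw [sm_succ, sm_succ, sm_succ, List.flatMap_append, ih]

lemma sm_iter (m k : ℕ) : sm m (iter k) = iter (k + m) := by
  induction m generalizing k with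
  | zero => rfl
  | succ m ih =>
    rw [sm_succ, show (iter k).flatMap morph = iter (k + 1) from rfl, ih]
    congr 1
    omega

lemma sm_letter_zero (m : ℕ) : sm m [0] = iter m := by
  have := sm_iter m 0
  rwa [Nat.zero_add] at this

/-- images of letters are long -/
lemma sm_length (m : ℕ) (a : Fin 3) : W m ≤ 2 * (sm m [a]).length := by
  rcases m with _ | m
  · simp [sm_zero, W]
  · have h0 : (sm m [0]).length = W m := by rw [sm_letter_zero, length_iter]
    have h1 : W (m + 1) ≤ 2 * W m := by
      match m with
      | 0 => decide
      | 1 => decide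
      | 2 => decide
      | (m + 3) => have := two_W m; rw [show m + 3 + 1 = m + 4 by ring]; omega
    have h2 : W m ≤ (sm (m + 1) [a]).length := by
      rw [sm_succ]
      have h3 : ∃ t, [a].flatMap morph = [0] ++ t := by
        fin_cases a
        · exact ⟨[1], rfl⟩
        · exact ⟨[2], rfl⟩
        · exact ⟨[], rfl⟩
      obtain ⟨t, ht⟩ := h3
      rw [ht, sm_append, List.length_append, h0]
      omega
    omega

/-- the first `n` letters of the Tribonacci word -/
def pre (n : ℕ) : List (Fin 3) := (iter n).take n

lemma pre_eq {n k : ℕ} (h : n ≤ W k) : pre n = (iter k).take n := by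
  have key : ∀ {a b : ℕ}, a ≤ b → n ≤ W a → (iter b).take n = (iter a).take n := by
    intro a b hab hn
    obtain ⟨c, hc⟩ := iter_prefix_le hab
    rw [← hc, List.take_append_of_le_length (by rw [length_iter]; exact hn)]
  rcases le_total n k with h1 | h1
  · exact (key h1 (W_gt n).le).symm
  · exact key h1 h

lemma length_pre (n : ℕ) : (pre n).length = n := by
  rw [pre, List.length_take, length_iter]
  have := W_gt n
  omega

lemma pre_peel (n x : ℕ) (hx : x ≤ W (n + 1) + W n) :
    pre (W (n + 2) + x) = iter (n + 2) ++ pre x := by
  have h1 : W (n + 2) + x ≤ W (n + 3) := by rw [W3]; omega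
  have h2 : iter (n + 1) ++ iter n <+: iter (n + 2) := by
    match n with
    | 0 => decide
    | (n + 1) =>
      rw [show n + 1 + 2 = n + 3 by ring, iter3 n]
      exact List.prefix_append _ _
  have h3 : x ≤ W (n + 2) := by have := W_two n; omega
  rw [pre_eq h1, pre_eq h3, iter3, List.append_assoc, ← length_iter (n + 2),
    List.take_length_add_append]
  congr 1
  obtain ⟨c, hc⟩ := h2
  have h4 := List.take_append_of_le_length (l₁ := iter (n + 1) ++ iter n) (l₂ := c) (i := x) (by
    rw [List.length_append, length_iter, length_iter]; exact hx)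
  rw [hc] at h4
  exact h4.symm

lemma length_sm_pre (m : ℕ) : ∀ e : List Bool, NoOnes e →
    (sm m (pre (val e))).length = vs m e
  | [], _ => by
    show (sm m (pre 0)).length = 0
    rw [show pre 0 = [] from rfl, sm_nil]
    rfl
  | (false :: e), h => by
    have ih := length_sm_pre m e (noOnes_cons h)
    simpa [val, vs] using ih
  | [true], _ => by
    show (sm m (pre 1)).length = W (0 + m) + 0
    rw [show pre 1 = [0] by decide, sm_letter_zero, length_iter, Nat.zero_add, Nat.add_zero]
  | [true, b], h => by
    have ih := length_sm_pre m [b] (noOnes_cons h)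
    have e1 : pre (val [true, b]) = iter 1 ++ pre (val [b]) := by cases b <;> decide
    rw [e1, sm_append, List.length_append, ih, sm_iter, length_iter]
    rfl
  | (true :: b :: c :: e), h => by
    have ih := length_sm_pre m (b :: c :: e) (noOnes_cons h)
    have hb := val_lt_one (b :: c :: e) e.length (by simp) h
    have e1 : val (true :: b :: c :: e) = W (e.length + 2) + val (b :: c :: e) := rfl
    rw [e1, pre_peel _ _ hb.le, sm_append, List.length_append, ih, sm_iter, length_iter]
    rfl

lemma pre_succ (n : ℕ) : pre (n + 1) = pre n ++ [r n] := by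
  have h1 : n < W (n + 1) := (Nat.lt_succ_self n).trans (W_gt (n + 1))
  have h2 : n < (iter (n + 1)).length := by rw [length_iter]; exact h1
  rw [pre_eq (k := n + 1) (W_gt (n + 1)).le, pre_eq (k := n + 1) h1.le, r_eq h1,
    List.take_add_one, List.getElem?_eq_getElem h2, List.getD_eq_getElem _ _ h2]
  rfl

lemma sm_four (m : ℕ) (a b c d : Fin 3) : 2 * W m ≤ (sm m [a, b, c, d]).length := by
  have e : sm m [a, b, c, d] = sm m [a] ++ (sm m [b] ++ (sm m [c] ++ sm m [d])) := by
    rw [← sm_append, ← sm_append, ← sm_append]; rfl
  rw [e, List.length_append, List.length_append, List.length_append]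
  have h1 := sm_length m a
  have h2 := sm_length m b
  have h3 := sm_length m c
  have h4 := sm_length m d
  omega

/-- the letters after a long block are determined by four letters -/
lemma r_local (m q y : ℕ) (hy : y < 2 * W m) :
    r ((sm m (pre q)).length + y) = (sm m [r q, r (q + 1), r (q + 2), r (q + 3)]).getD y 0 := by
  have h4 : pre (q + 4) = pre q ++ [r q, r (q + 1), r (q + 2), r (q + 3)] := by
    rw [pre_succ, pre_succ, pre_succ, pre_succ]; simp
  have hl := sm_four m (r q) (r (q + 1)) (r (q + 2)) (r (q + 3))
  have e : iter (q + 4 + m) = sm m (pre q) ++ (sm m [r q, r (q + 1), r (q + 2), r (q + 3)] ++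
      sm m ((iter (q + 4)).drop (q + 4))) := by
    rw [← sm_iter, ← sm_append, ← sm_append, ← List.append_assoc, ← h4, pre,
      List.take_append_drop]
  have hn : (sm m (pre q)).length + y < W (q + 4 + m) := by
    rw [← length_iter, e, List.length_append, List.length_append]
    omega
  rw [r_eq hn, e, List.getD_append_right _ _ _ _ (by omega), Nat.add_sub_cancel_left,
    List.getD_append _ _ _ _ (by omega)]

open Classical in
/-- the future of a word -/
noncomputable def fut (c : ℕ) (u w : List Bool) : Option (Fin 3) :=
  if NoOnes (u ++ w) then some (r (val (u ++ w) + c)) else none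

lemma fut_eq (c k : ℕ) (hk : 2 ≤ k) (hc : c < W k) (a b v : List Bool) (hv : v.length = k)
    (ha : NoOnes (a ++ v)) (hb : NoOnes (b ++ v))
    (h0 : r (val a) = r (val b)) (h1 : r (val a + 1) = r (val b + 1))
    (h2 : r (val a + 2) = r (val b + 2)) (h3 : r (val a + 3) = r (val b + 3)) :
    fut c (a ++ v) = fut c (b ++ v) := by
  funext w
  unfold fut
  rw [List.append_assoc, List.append_assoc]
  by_cases hw : NoOnes (v ++ w)
  · rw [if_pos (noOnes_glue a v w (by omega) ha hw), if_pos (noOnes_glue b v w (by omega) hb hw)]
    congr 1
    have hy : val (v ++ w) + c < 2 * W (v ++ w).length := by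
      have := val_lt _ hw
      have h5 : W k ≤ W (v ++ w).length := W_mono.monotone (by
        rw [List.length_append]; omega)
      omega
    rw [val_append a (v ++ w), val_append b (v ++ w), ← length_sm_pre _ a (noOnes_left ha),
      ← length_sm_pre _ b (noOnes_left hb), add_assoc, add_assoc, r_local _ _ _ hy,
      r_local _ _ _ hy, h0, h1, h2, h3]
  · rw [if_neg (fun h => hw (noOnes_right h)), if_neg (fun h => hw (noOnes_right h))]

lemma fut_false (c : ℕ) (u : List Bool) : fut c (false :: u) = fut c u := by
  funext w
  unfold fut
  have h1 : NoOnes (false :: u ++ w) ↔ NoOnes (u ++ w) := by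
    rw [List.cons_append]; exact noOnes_false
  have h2 : val (false :: u ++ w) = val (u ++ w) := by simp [val]
  by_cases h : NoOnes (u ++ w)
  · rw [if_pos (h1.2 h), if_pos h, h2]
  · rw [if_neg (fun h' => h (h1.1 h')), if_neg h]

lemma fut_pad (c k : ℕ) (u : List Bool) (hu : NoOnes u) :
    ∃ a v : List Bool, v.length = k ∧ NoOnes (a ++ v) ∧ fut c u = fut c (a ++ v) := by
  have h : ∀ k, NoOnes (List.replicate k false ++ u) ∧
      fut c u = fut c (List.replicate k false ++ u) := by
    intro k
    induction k with
    | zero => exact ⟨hu, rfl⟩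
    | succ k ih =>
      rw [List.replicate_succ, List.cons_append]
      exact ⟨noOnes_false.2 ih.1, by rw [fut_false]; exact ih.2⟩
  obtain ⟨h1, h2⟩ := h k
  refine ⟨(List.replicate k false ++ u).take u.length, (List.replicate k false ++ u).drop u.length,
    ?_, ?_, ?_⟩
  · simp
  · rw [List.take_append_drop]; exact h1
  · rw [List.take_append_drop]; exact h2

/-- the futures of the admissible words -/
def Fut (c : ℕ) : Type := {f : List Bool → Option (Fin 3) // ∃ u, NoOnes u ∧ f = fut c u}

lemma card_Fut (c k : ℕ) (hk : 2 ≤ k) (hc : c < W k) :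
    Finite (Fut c) ∧ Nat.card (Fut c) ≤ W k * 81 := by
  have h : ∀ f : Fut c, ∃ a v : List Bool, v.length = k ∧ NoOnes (a ++ v) ∧ f.1 = fut c (a ++ v) := by
    rintro ⟨f, u, hu, rfl⟩
    exact fut_pad c k u hu
  choose a v hv hn hf using h
  let g : Fut c → Fin (W k) × Fin 3 × Fin 3 × Fin 3 × Fin 3 := fun f =>
    (⟨val (v f), by have := val_lt _ (noOnes_right (hn f)); rwa [hv] at this⟩,
      r (val (a f)), r (val (a f) + 1), r (val (a f) + 2), r (val (a f) + 3))
  have hg : Function.Injective g := by
    intro f f' h
    simp only [g, Prod.mk.injEq, Fin.mk.injEq] at h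
    obtain ⟨e0, e1, e2, e3, e4⟩ := h
    have hvv : v f = v f' := val_inj _ _ (noOnes_right (hn f)) (noOnes_right (hn f'))
      (by rw [hv, hv]) e0
    apply Subtype.ext
    rw [hf f, hf f', hvv]
    exact fut_eq c k hk hc (a f) (a f') (v f') (hv f') (by rw [← hvv]; exact hn f) (hn f') e1 e2 e3 e4
  refine ⟨Finite.of_injective g hg, ?_⟩
  have := Nat.card_le_card_of_injective g hg
  simpa using this

/-- the state of a word -/
noncomputable def mk (c : ℕ) (u : List Bool) (hu : NoOnes u) : Fut c := ⟨fut c u, u, hu, rfl⟩

lemma fut_step {c : ℕ} {u : List Bool} {b : Bool} :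
    (fun w => fut c u (b :: w)) = fut c (u ++ [b]) := by
  funext w
  unfold fut
  have e : u ++ [b] ++ w = u ++ b :: w := by simp
  rw [e]

open Classical in
lemma fut_single (c : ℕ) (u : List Bool) (b : Bool) :
    fut c u [b] = none ↔ ¬ NoOnes (u ++ [b]) := by
  unfold fut
  split <;> simp_all

open Classical in
/-- one step -/
noncomputable def stp (c : ℕ) (f : Fut c) (b : Bool) : Option (Fut c) :=
  if h : f.1 [b] = none then none else some ⟨fun w => f.1 (b :: w), by
    obtain ⟨f, u, hu, rfl⟩ := f
    exact ⟨u ++ [b], not_not.1 (fun h' => h ((fut_single c u b).2 h')), fut_step⟩⟩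

lemma stp_some (c : ℕ) (u : List Bool) (hu : NoOnes u) (b : Bool) (h : NoOnes (u ++ [b])) :
    stp c (mk c u hu) b = some (mk c (u ++ [b]) h) := by
  unfold stp
  rw [dif_neg (by
    intro h'
    exact (fut_single c u b).1 h' h)]
  congr 1
  exact Subtype.ext fut_step

lemma stp_none (c : ℕ) (u : List Bool) (hu : NoOnes u) (b : Bool) (h : ¬ NoOnes (u ++ [b])) :
    stp c (mk c u hu) b = none := by
  unfold stp
  exact dif_pos ((fut_single c u b).2 h)

lemma run_some (c : ℕ) (e u : List Bool) (hu : NoOnes u) (h : NoOnes (u ++ e)) :
    e.foldlM (stp c) (mk c u hu) = some (mk c (u ++ e) h) := by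
  induction e generalizing u with
  | nil =>
    simp only [List.foldlM_nil]
    congr 1
    exact Subtype.ext (by simp [mk])
  | cons b e ih =>
    have h1 : NoOnes (u ++ [b]) := noOnes_left (b := e) (by simpa using h)
    rw [List.foldlM_cons, stp_some c u hu b h1]
    have := ih (u ++ [b]) h1 (by simpa using h)
    simp only [Option.bind_eq_bind, Option.bind_some]
    rw [this]
    congr 1
    exact Subtype.ext (by simp [mk])

lemma run_none (c : ℕ) (e u : List Bool) (hu : NoOnes u) (h : ¬ NoOnes (u ++ e)) :
    e.foldlM (stp c) (mk c u hu) = none := by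
  induction e generalizing u with
  | nil => exact absurd (by simpa using hu) h
  | cons b e ih =>
    rw [List.foldlM_cons]
    by_cases h1 : NoOnes (u ++ [b])
    · rw [stp_some c u hu b h1]
      simp only [Option.bind_eq_bind, Option.bind_some]
      exact ih (u ++ [b]) h1 (by simpa using h)
    · rw [stp_none c u hu b h1]
      rfl

lemma noOnes_nil : NoOnes [] := by unfold NoOnes; simp

/-- the automaton of futures -/
noncomputable def aut (c : ℕ) : DFAO (Fut c) where
  start := mk c [] noOnes_nil
  step := stp c
  out f := (f.1 []).getD 0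
  loop := by
    rw [stp_some c [] noOnes_nil false (by unfold NoOnes; decide)]
    congr 1
    exact Subtype.ext (fut_false c [])
  no_ones := by
    intro e he
    exact run_none c e [] noOnes_nil (fun h => h he)

lemma aut_generates (c : ℕ) : (aut c).Generates fun i => r (i + c) := by
  intro e he
  have h : NoOnes ([] ++ e) := he.1
  refine ⟨mk c ([] ++ e) h, run_some c e [] noOnes_nil h, ?_⟩
  show (fut c ([] ++ e) []).getD 0 = r (val e + c)
  unfold fut
  have h' : NoOnes e := he.1
  simp [h']

lemma choose_k (c : ℕ) : ∃ k, 2 ≤ k ∧ c < W k ∧ W k ≤ 2 * c + 4 := by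
  by_cases h : c < 4
  · exact ⟨2, le_rfl, h, by show 4 ≤ 2 * c + 4; omega⟩
  · have hex : ∃ k, c < W (k + 2) := ⟨c, by have := W_gt (c + 2); omega⟩
    classical
    obtain ⟨h1, h2⟩ : c < W (Nat.find hex + 2) ∧ ∀ j < Nat.find hex, ¬ c < W (j + 2) :=
      ⟨Nat.find_spec hex, fun j hj => Nat.find_min hex hj⟩
    rcases hn : Nat.find hex with _ | n
    · rw [hn] at h1
      exact absurd h1 h
    · rw [hn] at h1 h2
      refine ⟨n + 3, by omega, h1, ?_⟩
      have h3 := h2 n (by omega)
      have h4 : W (n + 3) ≤ 2 * W (n + 2) := by
        match n with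
        | 0 => decide
        | (n + 1) =>
          have := two_W n
          have e1 : W (n + 1 + 3) = W (n + 4) := rfl
          have e2 : W (n + 1 + 2) = W (n + 3) := rfl
          omega
      omega

lemma foldlM_transport {Q Q' : Type} (φ : Q ≃ Q') (s : Q → Bool → Option Q) (e : List Bool) (x : Q) :
    e.foldlM (fun y b => (s (φ.symm y) b).map φ) (φ x) = (e.foldlM s x).map φ := by
  induction e generalizing x with
  | nil => rfl
  | cons b e ih =>
    rw [List.foldlM_cons, List.foldlM_cons]
    simp only [Equiv.symm_apply_apply]
    cases h : s x b with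
    | none => rfl
    | some z =>
      simp only [Option.map_some, Option.bind_eq_bind, Option.bind_some]
      exact ih z

/-- renaming the states -/
lemma transport {Q Q' : Type} (φ : Q ≃ Q') (M : DFAO Q) {h : ℕ → Fin 3} (hM : M.Generates h) :
    ∃ M' : DFAO Q', M'.Generates h := by
  refine ⟨{ start := φ M.start, step := fun y b => (M.step (φ.symm y) b).map φ,
            out := fun y => M.out (φ.symm y), loop := ?_, no_ones := ?_ }, ?_⟩
  · simp [M.loop]
  · intro e he
    rw [foldlM_transport, M.no_ones e he]
    rfl
  · intro e he
    obtain ⟨q, hq, ho⟩ := hM e he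
    refine ⟨φ q, ?_, ?_⟩
    · show e.foldlM (fun y b => (M.step (φ.symm y) b).map φ) (φ M.start) = some (φ q)
      rw [foldlM_transport, hq]
      rfl
    · simpa using ho

lemma rep_length : ∀ n i : ℕ, i < W n → ∃ e : List Bool, e.length = n ∧ NoOnes e ∧ val e = i
  | 0, i, h => ⟨[], rfl, noOnes_nil, by have : W 0 = 1 := rfl; simp [val]; omega⟩
  | 1, i, h => by
    have h1 : i < 2 := h
    interval_cases i
    · exact ⟨[false], rfl, by unfold NoOnes; decide, rfl⟩
    · exact ⟨[true], rfl, by unfold NoOnes; decide, rfl⟩
  | 2, i, h => by
    have h1 : i < 4 := h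
    interval_cases i
    · exact ⟨[false, false], rfl, by unfold NoOnes; decide, rfl⟩
    · exact ⟨[false, true], rfl, by unfold NoOnes; decide, rfl⟩
    · exact ⟨[true, false], rfl, by unfold NoOnes; decide, rfl⟩
    · exact ⟨[true, true], rfl, by unfold NoOnes; decide, rfl⟩
  | (n + 3), i, h => by
    have h3 : W (n + 3) = W (n + 2) + W (n + 1) + W n := rfl
    by_cases h1 : i < W (n + 2)
    · obtain ⟨e, he, hn, hv⟩ := rep_length (n + 2) i h1
      exact ⟨false :: e, by simp [he], noOnes_false.2 hn, by simpa [val] using hv⟩
    · by_cases h2 : i < W (n + 2) + W (n + 1)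
      · obtain ⟨e, he, hn, hv⟩ := rep_length (n + 1) (i - W (n + 2)) (by omega)
        refine ⟨true :: false :: e, by simp [he], ?_, ?_⟩
        · unfold NoOnes
          rw [List.infix_cons_iff]
          rintro (h' | h')
          · simp at h'
          · exact noOnes_false.2 hn h'
        · simp only [val, List.length_cons, he, if_true, Bool.false_eq_true, if_false, hv]
          have : W (n + 1 + 1) = W (n + 2) := rfl
          omega
      · obtain ⟨e, he, hn, hv⟩ := rep_length n (i - W (n + 2) - W (n + 1)) (by omega)
        refine ⟨true :: true :: false :: e, by simp [he], ?_, ?_⟩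
        · unfold NoOnes
          rw [List.infix_cons_iff, List.infix_cons_iff]
          rintro (h' | h' | h')
          · simp at h'
          · simp at h'
          · exact noOnes_false.2 hn h'
        · simp only [val, List.length_cons, he, if_true, Bool.false_eq_true, if_false, hv]
          have : W (n + 1 + 1) = W (n + 2) := rfl
          omega

lemma rep_strip : ∀ e : List Bool, NoOnes e → ∃ e', IsRep e' ∧ val e' = val e
  | [], h => ⟨[], ⟨h, by simp⟩, rfl⟩
  | (false :: e), h => by
    obtain ⟨e', h1, h2⟩ := rep_strip e (noOnes_cons h)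
    exact ⟨e', h1, by simpa [val] using h2⟩
  | (true :: e), h => ⟨true :: e, ⟨h, by simp⟩, rfl⟩

lemma rep_exists (i : ℕ) : ∃ e, IsRep e ∧ val e = i := by
  obtain ⟨e, -, hn, hv⟩ := rep_length i i (W_gt i)
  obtain ⟨e', h1, h2⟩ := rep_strip e hn
  exact ⟨e', h1, h2.trans hv⟩

lemma generates_unique {Q : Type} (M : DFAO Q) {h h' : ℕ → Fin 3} (h1 : M.Generates h)
    (h2 : M.Generates h') : h = h' := by
  funext i
  obtain ⟨e, he, hv⟩ := rep_exists i
  obtain ⟨q, hq, ho⟩ := h1 e he
  obtain ⟨q', hq', ho'⟩ := h2 e he
  rw [hq] at hq'
  have : q = q' := Option.some.inj hq'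
  subst this
  rw [← hv, ← ho, ← ho']

instance finite_DFAO (n : ℕ) : Finite (DFAO (Fin n)) := by
  let g : DFAO (Fin n) → Fin n × (Fin n → Bool → Option (Fin n)) × (Fin n → Fin 3) :=
    fun M => (M.start, M.step, M.out)
  refine Finite.of_injective g ?_
  rintro ⟨s, p, o, _, _⟩ ⟨s', p', o', _, _⟩ h
  simp only [g, Prod.mk.injEq] at h
  obtain ⟨rfl, rfl, rfl⟩ := h
  rfl

/-- the state complexity of a sequence: the least number of states of a Tribonacci DFAO generating it -/
noncomputable def complexity (h : ℕ → Fin 3) : ℕ := sInf {n | ∃ M : DFAO (Fin n), M.Generates h}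

/-- `s c`: the state complexity of the shift by `c` of the Tribonacci word -/
noncomputable def s (c : ℕ) : ℕ := complexity fun i => r (i + c)

lemma upper_bound (c : ℕ) : ∃ n ≤ 324 * (c + 1), ∃ M : DFAO (Fin n), M.Generates fun i => r (i + c) := by
  obtain ⟨k, hk, hc, hW⟩ := choose_k c
  obtain ⟨hfin, hcard⟩ := card_Fut c k hk hc
  refine ⟨Nat.card (Fut c), by omega, ?_⟩
  exact transport (Finite.equivFin (Fut c)) (aut c) (aut_generates c)

lemma s_attained (c : ℕ) : ∃ M : DFAO (Fin (s c)), M.Generates fun i => r (i + c) := by
  obtain ⟨n, -, h⟩ := upper_bound c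
  exact Nat.sInf_mem (s := {n | ∃ M : DFAO (Fin n), M.Generates fun i => r (i + c)}) ⟨n, h⟩

lemma s_le (c : ℕ) : s c ≤ 324 * (c + 1) := by
  obtain ⟨n, hn, h⟩ := upper_bound c
  exact (Nat.sInf_le (s := {n | ∃ M : DFAO (Fin n), M.Generates fun i => r (i + c)}) h).trans hn

lemma pow_le_s (t : ℕ) : 2 ^ t ≤ s (W (3 * t + 1)) := by
  obtain ⟨M, hM⟩ := s_attained (W (3 * t + 1))
  simpa using pow_le_card M t hM

lemma s_tendsto : Filter.Tendsto s Filter.atTop Filter.atTop := by
  rw [Filter.tendsto_atTop]
  intro b
  by_contra hcon
  rw [Filter.not_eventually] at hcon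
  have hinf : {c | ¬ b ≤ s c}.Infinite := Nat.frequently_atTop_iff_infinite.1 hcon
  have : Infinite {c | ¬ b ≤ s c} := hinf.to_subtype
  choose M hM using s_attained
  let g : {c | ¬ b ≤ s c} → Σ m : Fin b, DFAO (Fin m) := fun c => ⟨⟨s c, not_le.1 c.2⟩, M c⟩
  obtain ⟨c, c', hne, hg⟩ := Finite.exists_ne_map_eq_of_infinite g
  have hshift : (fun i => r (i + c.1)) = fun i => r (i + c'.1) := by
    have h1 := hM c.1
    have h2 := hM c'.1
    have key : ∀ (x y : Σ m : Fin b, DFAO (Fin m)), x = y → ∀ h h' : ℕ → Fin 3,
        x.2.Generates h → y.2.Generates h' → h = h' := by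
      rintro x y rfl h h' hx hy
      exact generates_unique _ hx hy
    exact key (g c) (g c') hg _ _ h1 h2
  have main : ∀ a d : ℕ, a < d → (fun i => r (i + a)) = (fun i => r (i + d)) → False := by
    intro a d had h
    have hper : ∀ x, a ≤ x → r (x + (d - a)) = r x := by
      intro x hx
      have this : r (x - a + a) = r (x - a + d) := congrFun h (x - a)
      rw [show x - a + a = x by omega, show x - a + d = x + (d - a) by omega] at this
      exact this.symm
    have hper' : ∀ j x, a ≤ x → r (x + j * (d - a)) = r x := by
      intro j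
      induction j with
      | zero => intro x _; simp
      | succ j ih =>
        intro x hx
        rw [Nat.succ_mul, ← add_assoc, hper _ (by omega), ih x hx]
    have hb : ∀ x, a ≤ x → s x ≤ 324 * (d + 1) := by
      intro x hx
      have hp : 0 < d - a := by omega
      have hmod := Nat.mod_lt (x - a) hp
      have hdiv := Nat.mod_add_div (x - a) (d - a)
      have e : (fun i => r (i + x)) = fun i => r (i + (a + (x - a) % (d - a))) := by
        funext i
        have := hper' ((x - a) / (d - a)) (i + (a + (x - a) % (d - a))) (by omega)
        rw [← this]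
        congr 1
        rw [mul_comm ((x - a) / (d - a))]
        omega
      have h1 : s x = s (a + (x - a) % (d - a)) := by
        unfold s
        rw [e]
      rw [h1]
      exact (s_le _).trans (by omega)
    have h1 := pow_le_s (324 * (d + 1) + a)
    have h2 := hb (W (3 * (324 * (d + 1) + a) + 1)) (by
      have := W_gt (3 * (324 * (d + 1) + a) + 1); omega)
    have h3 : 324 * (d + 1) + a < 2 ^ (324 * (d + 1) + a) := Nat.lt_two_pow_self
    omega
  rcases lt_or_gt_of_ne (fun h => hne (Subtype.ext h)) with h | h
  · exact main _ _ h hshift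
  · exact main _ _ h hshift.symm

/-- Let `s c` be the state complexity of the shift by `c` of the Tribonacci word. (1) `s c` is
attained and at most `324 (c + 1)`. (2) `s c` tends to infinity. (3) `s c ≥ 2 ^ t` for
`c = W (3 t + 1)`. (4) `c ^ 3 ≤ 9 (s c) ^ 8` for infinitely many `c`. -/
theorem result :
    (∀ c, (∃ M : DFAO (Fin (s c)), M.Generates fun i => r (i + c)) ∧ s c ≤ 324 * (c + 1)) ∧
    Filter.Tendsto s Filter.atTop Filter.atTop ∧
    (∀ t, 2 ^ t ≤ s (W (3 * t + 1))) ∧
    (∀ c₀, ∃ c, c₀ ≤ c ∧ c ^ 3 ≤ 9 * s c ^ 8) := by
  refine ⟨fun c => ⟨s_attained c, s_le c⟩, s_tendsto, pow_le_s, ?_⟩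
  intro c₀
  refine ⟨W (3 * c₀ + 1), ?_, ?_⟩
  · have := W_gt (3 * c₀ + 1)
    omega
  · exact (W_cube c₀).trans (Nat.mul_le_mul_left 9 (Nat.pow_le_pow_left (pow_le_s c₀) 8))

end Pool.Agent.Results.MP_99b159_lc.PolynomialGrowth
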